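import Pool.Agent.H43.Koe2

open Pool.Agent.H43.Koe

namespace Pool.Agent.Results.MP_b30f08_an.No

/-- On a nuclear Koethe coechelon space `k_p(V)`, a topologically ergodic backward shift is
sequentially hypercyclic (indeed some weight `v^(n)` is summable). -/
theorem result (𝕂 : Type) [RCLike 𝕂] (V : Data)
    (hv : ∀ m, ∃ n, m ≤ n ∧ ∃ C, 0 < C ∧ ∀ j, V.v n j ≤ C * V.v m (j + 1))
    (B : K 𝕂 V → K 𝕂 V) (hB : ∀ x j, (B x).1 j = x.1 (j + 1))
    (hN : Nuclear 𝕂 V) (hE : TopErgodic (top 𝕂 V) B) :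
    SeqHypercyclic (top 𝕂 V) B := by
  obtain ⟨n, hn⟩ := exists_summable hv hB hN hE
  exact seqHC hB hn

end Pool.Agent.Results.MP_b30f08_an.No
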